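import Pool.Agent.Helper3.CB.EndHDM

/-! Project CB: potential density for products of conic bundles from harmless points of the base. -/

set_option autoImplicit false

namespace Pool.Agent.Helper33.CB

open MvPolynomial AlgebraicGeometry CategoryTheory Pool.Agent.Helper15
open Pool.Agent.Helper65.CB (HS solve)

/-! ## normal form -/

section NF

variable {A : Type*} [CommRing A] {r : ℕ}

/-- the equations of a product of conics -/
noncomputable def eqnF (a b : Fin r → A) (i : Fin r) : MvPolynomial (Fin r × Fin 2) A :=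
  X (i, 0) ^ 2 - C (a i) * X (i, 1) ^ 2 - C (b i)

/-- the ideal of a product of conics -/
noncomputable def idF (a b : Fin r → A) : Ideal (MvPolynomial (Fin r × Fin 2) A) :=
  Ideal.span (Set.range (eqnF a b))

/-- normal forms -/
noncomputable def NF (h : Finset (Fin r) → MvPolynomial (Fin r) A) :
    MvPolynomial (Fin r × Fin 2) A :=
  ∑ S, rename (fun i => (i, (1 : Fin 2))) (h S) * ∏ i ∈ S, X (i, 0)

open Classical in
/-- adding or removing an index -/
noncomputable def flip (j : Fin r) : Finset (Fin r) ≃ Finset (Fin r) where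
  toFun S := if j ∈ S then S.erase j else insert j S
  invFun S := if j ∈ S then S.erase j else insert j S
  left_inv S := by
    by_cases hj : j ∈ S
    · simp [hj, Finset.insert_erase]
    · simp [hj]
  right_inv S := by
    by_cases hj : j ∈ S
    · simp [hj, Finset.insert_erase]
    · simp [hj]

theorem nf_mul_x0 (a b : Fin r → A) (h : Finset (Fin r) → MvPolynomial (Fin r) A) (j : Fin r) :
    ∃ h', NF h * X (j, 0) - NF h' ∈ idF a b := by
  classical
  set h' : Finset (Fin r) → MvPolynomial (Fin r) A := fun S => if j ∈ S then h (S.erase j) else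
      (C (a j) * X j ^ 2 + C (b j)) * h (insert j S) with hh'
  refine ⟨h', ?_⟩
  rw [← Ideal.Quotient.eq]
  have hsq : Ideal.Quotient.mk (idF a b) (X (j, 0)) ^ 2 =
      Ideal.Quotient.mk (idF a b) (C (a j) * X (j, 1) ^ 2 + C (b j)) := by
    rw [← map_pow, Ideal.Quotient.eq]
    have h1 : eqnF a b j ∈ idF a b := Ideal.subset_span ⟨j, rfl⟩
    convert h1 using 1
    unfold eqnF
    ring
  unfold NF
  rw [Finset.sum_mul, map_sum, map_sum, ← (flip j).sum_comp]
  refine Finset.sum_congr rfl fun S _ => ?_
  by_cases hj : j ∈ S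
  · have hf : flip j S = S.erase j := by simp [flip, hj]
    have hS : h' S = h (S.erase j) := by simp only [hh', if_pos hj]
    rw [hf, hS, mul_assoc]
    congr 2
    exact Finset.prod_erase_mul S (fun i => X (i, (0 : Fin 2))) hj
  · have hf : flip j S = insert j S := by simp [flip, hj]
    have hS : h' S = (C (a j) * X j ^ 2 + C (b j)) * h (insert j S) := by
      simp only [hh', if_neg hj]
    rw [hf, hS, Finset.prod_insert hj]
    simp only [map_mul, map_add, map_pow, rename_C, rename_X] at hsq ⊢
    linear_combination (Ideal.Quotient.mk (idF a b)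
      ((rename fun i => (i, (1 : Fin 2))) (h (insert j S))) *
      Ideal.Quotient.mk (idF a b) (∏ i ∈ S, X (i, 0))) * hsq

theorem nf_mul_x1 (h : Finset (Fin r) → MvPolynomial (Fin r) A) (j : Fin r) :
    NF (fun S => h S * X j) = NF h * X (j, 1) := by
  unfold NF
  rw [Finset.sum_mul]
  refine Finset.sum_congr rfl fun S _ => ?_
  rw [map_mul, rename_X]
  ring

theorem exists_nf (a b : Fin r → A) (G : MvPolynomial (Fin r × Fin 2) A) :
    ∃ h, G - NF h ∈ idF a b := by
  classical
  induction G using MvPolynomial.induction_on with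
  | C c =>
    refine ⟨fun S => if S = ∅ then C c else 0, ?_⟩
    have : NF (fun S : Finset (Fin r) => if S = ∅ then (C c : MvPolynomial (Fin r) A) else 0) =
        C c := by
      unfold NF
      rw [Finset.sum_eq_single ∅]
      · simp
      · intro S _ hS
        simp [hS]
      · intro h
        exact absurd (Finset.mem_univ _) h
    rw [this, sub_self]
    exact zero_mem _
  | add p q hp hq =>
    obtain ⟨h1, hh1⟩ := hp
    obtain ⟨h2, hh2⟩ := hq
    refine ⟨fun S => h1 S + h2 S, ?_⟩
    have : NF (fun S => h1 S + h2 S) = NF h1 + NF h2 := by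
      unfold NF
      rw [← Finset.sum_add_distrib]
      refine Finset.sum_congr rfl fun S _ => ?_
      rw [map_add, add_mul]
    rw [this]
    have h3 := add_mem hh1 hh2
    convert h3 using 1
    ring
  | mul_X p n hp =>
    obtain ⟨h, hh⟩ := hp
    have key : ∃ h', NF h * X n - NF h' ∈ idF a b := by
      obtain ⟨j, ε⟩ := n
      have hε : ε = 0 ∨ ε = 1 := by omega
      rcases hε with rfl | rfl
      · exact nf_mul_x0 a b h j
      · refine ⟨fun S => h S * X j, ?_⟩
        rw [nf_mul_x1, sub_self]
        exact zero_mem _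
    obtain ⟨h', hh'⟩ := key
    refine ⟨h', ?_⟩
    have h3 := add_mem (Ideal.mul_mem_right (X n) _ hh) hh'
    convert h3 using 1
    ring

end NF

/-! ## separation -/

/-- a multilinear polynomial is determined by its values at the signed points of a point with
nonzero coordinates -/
theorem coeff_zero_of_signs {L : Type*} [Field L] [CharZero L] {r : ℕ}
    (c : Finset (Fin r) → L) (x : Fin r → L) (hx : ∀ i, x i ≠ 0)
    (h : ∀ z : Fin r → L, (∀ i, z i = x i ∨ z i = - x i) → ∑ S, c S * ∏ i ∈ S, z i = 0)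
    (T : Finset (Fin r)) : c T = 0 := by
  classical
  set P : MvPolynomial (Fin r) L :=
    ∑ S : Finset (Fin r), C (c S) * ∏ i ∈ S, X i ^ ((fun _ => 1 : Fin r → ℕ) i) with hP
  have hdeg : ∀ i, P.degreeOf i ≤ 1 := by
    intro i
    refine (degreeOf_sum_le i _ _).trans ?_
    refine Finset.sup_le fun S _ => ?_
    refine (degreeOf_C_mul_le _ _ _).trans ?_
    refine (degreeOf_prod_le i _ _).trans ?_
    by_cases hi : i ∈ S
    · rw [Finset.sum_eq_single_of_mem i hi]
      · simp
      · intro j _ hj
        simp [degreeOf_X, hj.symm]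
    · rw [Finset.sum_eq_zero]
      · omega
      · intro j hj
        have : i ≠ j := fun h => hi (h ▸ hj)
        simp [degreeOf_X, this]
  have hP0 : P = 0 := by
    refine eq_zero_of_eval_zero_at_prod_finset P (fun i => {x i, - x i}) (fun i => ?_) ?_
    · have h2 : x i ≠ - x i := by
        intro h3
        apply hx i
        have h4 : (2 : L) * x i = 0 := by linear_combination h3
        rcases mul_eq_zero.1 h4 with h5 | h5
        · exact absurd h5 two_ne_zero
        · exact h5
      rw [Finset.card_pair h2]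
      have := hdeg i
      omega
    · intro z hz
      have h2 := h z fun i => by
        have := hz i
        simpa using this
      rw [hP, map_sum, ← h2]
      refine Finset.sum_congr rfl fun S _ => ?_
      simp [map_mul, map_prod]
  have h1 := congrArg (fun Q : MvPolynomial (Fin r) L =>
    Q.coeff (Finsupp.indicator T (fun i _ => (fun _ => 1 : Fin r → ℕ) i))) hP0
  simp only [hP, coeff_zero, coeff_sum, coeff_C_mul, prod_X_pow, coeff_monomial] at h1
  rw [Finset.sum_eq_single T] at h1
  · simpa using h1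
  · intro S _ hS
    rw [if_neg, mul_zero]
    intro h2
    apply hS
    ext i
    have h3 := DFunLike.congr_fun h2 i
    simp only [Finsupp.indicator_apply] at h3
    by_cases h4 : i ∈ S <;> by_cases h5 : i ∈ T <;> simp [h4, h5] at h3 ⊢
  · intro h2
    exact absurd (Finset.mem_univ _) h2

/-- Separation of functions by points. -/
theorem separateF {K M L A : Type} [Field K] [Field M] [Field L] [Algebra K M] [Algebra M L]
    [Algebra K L] [IsScalarTower K M L] [CharZero L] [CommRing A] [Algebra K A] {r : ℕ}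
    (a b : Fin r → A)
    (H : ∀ d : A, d ≠ 0 → ∃ φ : A →ₐ[K] M, φ d ≠ 0 ∧ ∀ i, φ (b i) ≠ 0 ∧
      ∀ Y : Finset L, ∃ x y : L, y ∉ Y ∧
        x ^ 2 = algebraMap M L (φ (a i)) * y ^ 2 + algebraMap M L (φ (b i)))
    (g : MvPolynomial (Fin r × Fin 2) A ⧸ idF a b)
    (hg : ∀ ψ : (MvPolynomial (Fin r × Fin 2) A ⧸ idF a b) →ₐ[K] L, ψ g = 0) : g = 0 := by
  classical
  obtain ⟨G, rfl⟩ := Ideal.Quotient.mk_surjective g
  obtain ⟨h, hh⟩ := exists_nf a b G
  by_cases hz : ∀ S, h S = 0
  · have hNF : NF h = 0 := by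
      unfold NF
      exact Finset.sum_eq_zero fun S _ => by rw [hz S, map_zero, zero_mul]
    rw [hNF, sub_zero] at hh
    exact Ideal.Quotient.eq_zero_iff_mem.2 hh
  exfalso
  push Not at hz
  obtain ⟨T, hT⟩ := hz
  obtain ⟨m, hm⟩ := ne_zero_iff.1 hT
  obtain ⟨φ, hφ, hφi⟩ := H _ hm
  set σ : A →+* L := (algebraMap M L).comp (φ : A →+* M) with hσ
  have hσm : σ (coeff m (h T)) ≠ 0 := by
    show algebraMap M L (φ (coeff m (h T))) ≠ 0
    rwa [Ne, map_eq_zero_iff _ (algebraMap M L).injective]
  have hTL : map σ (h T) ≠ 0 := by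
    intro h0
    apply hσm
    rw [← coeff_map, h0, coeff_zero]
  -- the infinite sets of second coordinates
  set Ys : Fin r → Set L := fun i => {y | ∃ x : L, x ≠ 0 ∧ x ^ 2 = σ (a i) * y ^ 2 + σ (b i)}
    with hYs
  have hinf : ∀ i, (Ys i).Infinite := by
    intro i hfin
    have hb : σ (b i) ≠ 0 := by
      show algebraMap M L (φ (b i)) ≠ 0
      rw [Ne, map_eq_zero_iff _ (algebraMap M L).injective]
      exact (hφi i).1
    set q : Polynomial L := Polynomial.C (σ (a i)) * Polynomial.X ^ 2 + Polynomial.C (σ (b i))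
      with hq
    have hq0 : q ≠ 0 := by
      intro h0
      have := congrArg (Polynomial.eval 0) h0
      simp [hq] at this
      exact hb this
    obtain ⟨x, y, hy, hxy⟩ := (hφi i).2 (hfin.toFinset ∪ q.roots.toFinset)
    rw [Finset.mem_union, not_or] at hy
    apply hy.1
    rw [Set.Finite.mem_toFinset]
    refine ⟨x, ?_, hxy⟩
    rintro rfl
    apply hy.2
    rw [Multiset.mem_toFinset, Polynomial.mem_roots hq0, Polynomial.IsRoot.def]
    have h1 : (0 : L) ^ 2 = σ (a i) * y ^ 2 + σ (b i) := hxy
    simp only [hq, Polynomial.eval_add, Polynomial.eval_mul, Polynomial.eval_pow,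
      Polynomial.eval_C, Polynomial.eval_X]
    rw [← h1]
    norm_num
  apply hTL
  refine funext_set Ys hinf fun y hy => ?_
  rw [map_zero]
  have hy' : ∀ i, ∃ x : L, x ≠ 0 ∧ x ^ 2 = σ (a i) * y i ^ 2 + σ (b i) := fun i =>
    hy i (Set.mem_univ i)
  choose x hx0 hx using hy'
  refine coeff_zero_of_signs (fun S => eval y (map σ (h S))) x hx0 ?_ T
  intro z hz
  have hz2 : ∀ i, z i ^ 2 = σ (a i) * y i ^ 2 + σ (b i) := by
    intro i
    rcases hz i with h1 | h1
    · rw [h1, hx]
    · rw [h1, neg_sq, hx]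
  -- the point
  set ψ0 : MvPolynomial (Fin r × Fin 2) A →+* L :=
    eval₂Hom σ (fun n => if n.2 = 0 then z n.1 else y n.1) with hψ0
  have e0 : ∀ i, ψ0 (X (i, 0)) = z i := fun i => by simp [hψ0]
  have e1 : ∀ i, ψ0 (X (i, 1)) = y i := fun i => by simp [hψ0]
  have eC : ∀ c, ψ0 (C c) = σ c := fun c => by simp [hψ0]
  have hker : ∀ p ∈ idF a b, ψ0 p = 0 := by
    intro p hp
    have h1 : idF a b ≤ RingHom.ker ψ0 := by
      refine Ideal.span_le.2 ?_
      rintro _ ⟨i, rfl⟩
      show ψ0 (eqnF a b i) = 0
      unfold eqnF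
      rw [map_sub, map_sub, map_mul, map_pow, map_pow, e0, e1, eC, eC, hz2]
      ring
    exact h1 hp
  have hcomm : ∀ k : K, ψ0 (algebraMap K (MvPolynomial (Fin r × Fin 2) A) k) =
      algebraMap K L k := by
    intro k
    have h1 : algebraMap K (MvPolynomial (Fin r × Fin 2) A) k = C (algebraMap K A k) := rfl
    rw [h1, eC]
    show algebraMap M L (φ (algebraMap K A k)) = _
    rw [φ.commutes, ← IsScalarTower.algebraMap_apply K M L]
  let ψ : (MvPolynomial (Fin r × Fin 2) A ⧸ idF a b) →ₐ[K] L :=
    { Ideal.Quotient.lift (idF a b) ψ0 hker with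
      commutes' := fun k => by
        show Ideal.Quotient.lift (idF a b) ψ0 hker
          (Ideal.Quotient.mk _ (algebraMap K (MvPolynomial (Fin r × Fin 2) A) k)) = _
        rw [Ideal.Quotient.lift_mk, hcomm] }
  have hG0 : ψ0 G = 0 := hg ψ
  have h1 := hker _ hh
  rw [map_sub, hG0, zero_sub, neg_eq_zero] at h1
  unfold NF at h1
  rw [map_sum] at h1
  rw [← h1]
  refine Finset.sum_congr rfl fun S _ => ?_
  rw [map_mul, map_prod]
  have h2 : ψ0 (rename (fun i => (i, (1 : Fin 2))) (h S)) = eval y (map σ (h S)) := by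
    rw [hψ0, coe_eval₂Hom, eval₂_rename, MvPolynomial.eval_map]
    congr 1
  rw [h2]
  simp only [e0]

/-- **ENDFAM.** Potential density of a family of products of conics from points of the base. -/
theorem end_fam (K M : Type) [Field K] [NumberField K] [Field M] [NumberField M] [Algebra K M]
    (A : Type) [CommRing A] [Algebra K A] (r : ℕ) (a b : Fin r → A) (J : ℕ)
    (hd : ∀ f : A, f ≠ 0 → ∃ φ : A →ₐ[K] M, φ f ≠ 0 ∧ ∀ i, HS M J (φ (a i)) (φ (b i)))
    (X : Scheme.{0}) (s : X ⟶ Spec (CommRingCat.of K)) [IrreducibleSpace X]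
    (hX : BirationalOver K X (Spec (CommRingCat.of (MvPolynomial (Fin r × Fin 2) A ⧸ Ideal.span
      (Set.range fun i : Fin r => (MvPolynomial.X (i, 0) ^ 2 -
        MvPolynomial.C (a i) * MvPolynomial.X (i, 1) ^ 2 - MvPolynomial.C (b i) :
        MvPolynomial (Fin r × Fin 2) A))))) s
      (Spec.map (CommRingCat.ofHom (algebraMap K (MvPolynomial (Fin r × Fin 2) A ⧸ Ideal.span
      (Set.range fun i : Fin r => (MvPolynomial.X (i, 0) ^ 2 -
        MvPolynomial.C (a i) * MvPolynomial.X (i, 1) ^ 2 - MvPolynomial.C (b i) :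
        MvPolynomial (Fin r × Fin 2) A))))))) :
    PotentiallyDense K X s := by
  obtain ⟨L, iL, iA, hfin, hL⟩ := solve M J (Pool.Agent.Helper16.CB.algebraic_block M J)
  let iKL : Algebra K L := ((algebraMap M L).comp (algebraMap K M)).toAlgebra
  have htower : IsScalarTower K M L := IsScalarTower.of_algebraMap_eq (fun x => rfl)
  have hKM : FiniteDimensional K M := inferInstance
  have hfKL : FiniteDimensional K L := FiniteDimensional.trans K M L
  have hchL : CharZero L := charZero_of_injective_algebraMap (algebraMap M L).injective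
  refine PotentiallyDense.of_birational K X _ s _ hX
    ⟨L, inferInstance, inferInstance, inferInstance, ?_⟩
  refine dense_ratPts_spec K L _
    (fun g hg => separateF (M := M) a b (fun d hd0 => ?_) g hg)
  obtain ⟨φ, hφ, hHS⟩ := hd d hd0
  refine ⟨φ, hφ, fun i => ?_⟩
  obtain ⟨hx, hy, X₀, Y₀, hXY⟩ := hL _ _ (hHS i)
  refine ⟨hy, fun Y => ?_⟩
  have hinj : Function.Injective (algebraMap M L) := (algebraMap M L).injective
  obtain ⟨x', y', h3, h4⟩ := Pool.Agent.Helper56.CB.conic_points
    (a := algebraMap M L (φ (a i))) (b := algebraMap M L (φ (b i)))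
    (by rwa [Ne, map_eq_zero_iff _ hinj]) (by rwa [Ne, map_eq_zero_iff _ hinj])
    (x := X₀) (y := Y₀) (z := 1) (Or.inr (Or.inr one_ne_zero))
    (by linear_combination hXY) Y
  exact ⟨x', y', h3, h4⟩

end Pool.Agent.Helper33.CB
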