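import Pool.Agent.Helper16.CB.LocSub

/-! A3 (project CB): the global subgroup. -/

set_option autoImplicit false

namespace Pool.Agent.Helper33.CB

open Pool.Agent.Helper16.CB UniqueFactorizationMonoid

/-- A3.  `G` is the intersection of the local subgroups of A2 over the primes dividing `a * b`
(`Subgroup.index_iInf_le`, multiplicativity of `absNorm`). -/
theorem glob_sub {R : Type*} [CommRing R] [IsDedekindDomain R] [Module.Free ℤ R]
    [Module.Finite ℤ R] {a b : R} (ha : a ≠ 0) (hb : b ≠ 0)
    (h : ∀ q : Ideal R, q.IsPrime → q ≠ ⊥ → a * b ∈ q → LC q a b) :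
    ∃ G : AddSubgroup (R × R × R), G.index ≠ 0 ∧
      G.index ≤ Ideal.absNorm (Ideal.span {a * b}) ∧
      ∀ v ∈ G, a * b ∣ Qf a b v := by
  classical
  have hab : a * b ≠ 0 := mul_ne_zero ha hb
  set I : Ideal R := Ideal.span {a * b} with hI
  have hI0 : I ≠ 0 := by
    rw [hI, Ne, Ideal.zero_eq_bot, Ideal.span_singleton_eq_bot]
    exact hab
  set s : Finset (Ideal R) := (normalizedFactors I).toFinset with hs
  have hp : ∀ q ∈ s, Prime q := fun q hq =>
    prime_of_normalized_factor q (Multiset.mem_toFinset.1 hq)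
  have hprod : ∏ q ∈ s, q ^ (normalizedFactors I).count q = I := by
    rw [hs, ← Finset.prod_multiset_count]
    exact associated_iff_eq.1 (prod_normalizedFactors hI0)
  have hex : ∀ q : s, ∃ G : AddSubgroup (R × R × R), G.index ≠ 0 ∧
      G.index ≤ Ideal.absNorm (q : Ideal R) ^ (normalizedFactors I).count (q : Ideal R) ∧
      ∀ v ∈ G, Qf a b v ∈ (q : Ideal R) ^ (normalizedFactors I).count (q : Ideal R) := by
    rintro ⟨q, hq⟩
    have hqp := Ideal.isPrime_of_prime (hp q hq)
    have hq0 : q ≠ ⊥ := (hp q hq).ne_zero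
    have hmem : a * b ∈ q := by
      have h1 : q ∣ I := dvd_of_mem_normalizedFactors (Multiset.mem_toFinset.1 hq)
      exact (Ideal.dvd_span_singleton).1 h1
    obtain ⟨α, β, G, h1, h2, h3, h4, h5⟩ := loc_sub hqp hq0 (h q hqp hq0 hmem)
    have h6 := (h1.mul hqp hq0 h2)
    rw [val_iff] at h6
    have h7 : (normalizedFactors I).count q = α + β := by
      have h8 := emultiplicity_eq_count_normalizedFactors (hp q hq).irreducible hI0
      rw [normalize_eq] at h8
      rw [← hI] at h6
      rw [h6] at h8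
      exact_mod_cast h8.symm
    simp only
    rw [h7]
    exact ⟨G, h3, h4, h5⟩
  choose G hG1 hG2 hG3 using hex
  refine ⟨⨅ q, G q, ?_, ?_, ?_⟩
  · exact AddSubgroup.index_iInf_ne_zero hG1
  · refine (AddSubgroup.index_iInf_le _).trans ?_
    refine (Finset.prod_le_prod' fun q _ => hG2 q).trans ?_
    rw [Finset.prod_coe_sort s (fun q => Ideal.absNorm q ^ (normalizedFactors I).count q)]
    conv_rhs => rw [← hprod]
    rw [map_prod]
    simp only [map_pow]
    exact le_rfl
  · intro v hv
    rw [← Ideal.mem_span_singleton, ← hI, ← hprod,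
      ← IsDedekindDomain.inf_prime_pow_eq_prod s (fun q => q) _ hp (fun i _ j _ hij => hij),
      Finset.inf_eq_iInf]
    simp only [Submodule.mem_iInf]
    intro q hq
    exact hG3 ⟨q, hq⟩ v ((AddSubgroup.mem_iInf.1 hv) ⟨q, hq⟩)

end Pool.Agent.Helper33.CB
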