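import Pool.Agent.Helper33.CB.Scale
import Pool.Agent.Helper17.CB.LCVA
import Pool.Agent.Helper3.CB.StepG
import Pool.Agent.Helper65.CB.HSF
import Pool.Agent.Helper79.CB.LcMul

/-! Project CB: **STEP**, one more variable, with unramified factors of any degree. -/

set_option autoImplicit false

namespace Pool.Agent.Helper33.CB

open NumberField Polynomial UniqueFactorizationMonoid
open Pool.Agent.Helper4.CB Pool.Agent.Helper16.CB
open Pool.Agent.Helper3.CB (vA dg stepG)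
open Pool.Agent.Helper65.CB (HS)

/-- **STEP**: one more variable; the irreducible factors have degree at most `dm` or the symbol
`(a, b)` is unramified there. -/
def StepG (K : Type) [Field K] [NumberField K] (dm : ℕ) : Prop :=
  ∀ D J0 : ℕ, ∃ J : ℕ, J0 ≤ J ∧ ∀ a b : K[X], a ≠ 0 → b ≠ 0 → (a * b).natDegree ≤ D →
    (∀ P : K[X], Irreducible P → P ∣ a * b → P.natDegree ≤ dm ∨ LC (Ideal.span {P}) a b) →
    HS K J0 a.leadingCoeff b.leadingCoeff →
    ∀ Z : Finset K, ∃ s : K, s ∉ Z ∧ HS K J (a.eval s) (b.eval s)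

theorem step_g (K : Type) [Field K] [NumberField K] (dm : ℕ) (hs : SieveX K dm) :
    StepG K dm := by
  classical
  intro D J0
  obtain ⟨J, hJ0, hL⟩ := stepG K dm hs D J0
  refine ⟨J, hJ0, ?_⟩
  intro a b ha hb hD hfac hHS Z
  have hab : a * b ≠ 0 := mul_ne_zero ha hb
  set T : Finset K[X] := (normalizedFactors (a * b)).toFinset with hT
  have hTP : ∀ P ∈ T, Irreducible P ∧ P.Monic ∧ P ∣ a * b := fun P hP =>
    (Polynomial.mem_normalizedFactors_iff hab).1 (Multiset.mem_toFinset.1 hP)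
  have hTd : ∀ P ∈ T, 1 ≤ P.natDegree := fun P hP => (hTP P hP).1.natDegree_pos
  have hTab : normalizedFactors (a * b) = normalizedFactors a + normalizedFactors b :=
    normalizedFactors_mul ha hb
  have hTa : (normalizedFactors a).toFinset ⊆ T := by
    intro P hP
    rw [Multiset.mem_toFinset] at hP
    rw [hT, Multiset.mem_toFinset, hTab, Multiset.mem_add]
    exact Or.inl hP
  have hTb : (normalizedFactors b).toFinset ⊆ T := by
    intro P hP
    rw [Multiset.mem_toFinset] at hP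
    rw [hT, Multiset.mem_toFinset, hTab, Multiset.mem_add]
    exact Or.inr hP
  -- integral versions
  obtain ⟨n, hn0, hN⟩ := exists_scale T (fun P hP => (hTP P hP).2.1)
  have hnK : (n : K) ≠ 0 := Nat.cast_ne_zero.2 hn0
  set N : K := (n : K) ^ 2 with hNdef
  have hNK : N ≠ 0 := pow_ne_zero _ hnK
  have hN' : ∀ P : K[X], ∃ Q : (𝓞 K)[X], P ∈ T → Q.Monic ∧
      Q.natDegree = P.natDegree ∧ Q.map (algebraMap (𝓞 K) K) = P.scaleRoots N := by
    intro P
    by_cases hP : P ∈ T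
    · obtain ⟨Q, hQ⟩ := hN P hP
      exact ⟨Q, fun _ => hQ⟩
    · exact ⟨0, fun h => absurd h hP⟩
  choose lft hl using hN'
  set inv : (𝓞 K)[X] → K[X] := fun Q =>
    (Q.map (algebraMap (𝓞 K) K)).scaleRoots (N⁻¹) with hinv
  have hinvl : ∀ P ∈ T, inv (lft P) = P := by
    intro P hP
    simp only [hinv]
    rw [(hl P hP).2.2, ← scaleRoots_mul, mul_inv_cancel₀ hNK, scaleRoots_one]
  have hinj : Set.InjOn lft T := by
    intro P hP P' hP' h
    rw [← hinvl P hP, ← hinvl P' hP', h]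
  set S₀ := T.image lft with hS₀
  set S := (T.filter (fun P => P.natDegree ≤ dm)).image lft with hS
  have hprod : ∀ {M : Type} [CommMonoid M] (g : (𝓞 K)[X] → M),
      ∏ Q ∈ S₀, g Q = ∏ P ∈ T, g (lft P) := fun g => Finset.prod_image hinj
  have hsum : ∀ g : (𝓞 K)[X] → ℕ, ∑ Q ∈ S₀, g Q = ∑ P ∈ T, g (lft P) :=
    fun g => Finset.sum_image hinj
  have hS₀P : ∀ Q ∈ S₀, Q.Monic ∧ 1 ≤ Q.natDegree ∧
      Irreducible (Q.map (algebraMap (𝓞 K) K)) := by
    intro Q hQ
    obtain ⟨P, hP, rfl⟩ := Finset.mem_image.1 hQ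
    obtain ⟨h1, h2, h3⟩ := hl P hP
    refine ⟨h1, h2 ▸ hTd P hP, ?_⟩
    rw [h3, scale_eq hNK]
    have hu : IsUnit (C (N ^ P.natDegree)) := isUnit_C.2 (pow_ne_zero _ hNK).isUnit
    rw [irreducible_isUnit_mul hu]
    exact (MulEquiv.irreducible_iff (tau N hNK)).2 (hTP P hP).1
  have hSS : S ⊆ S₀ := Finset.image_subset_image (Finset.filter_subset _ _)
  have hcard : S.card ≤ D := by
    refine (Finset.card_image_le.trans (Finset.card_filter_le _ _)).trans (le_trans ?_ hD)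
    have h1 : (a * b) = C (a * b).leadingCoeff * ∏ P ∈ T, P ^ (normalizedFactors (a * b)).count P :=
      eq_prod_factors T subset_rfl
    have h2 : (a * b).natDegree = ∑ P ∈ T, (normalizedFactors (a * b)).count P * P.natDegree := by
      conv_lhs => rw [h1]
      rw [natDegree_C_mul (leadingCoeff_ne_zero.2 hab),
        natDegree_prod_of_monic _ _ (fun P hP => (hTP P hP).2.1.pow _)]
      exact Finset.sum_congr rfl fun P hP => (hTP P hP).2.1.natDegree_pow _
    rw [h2, Finset.card_eq_sum_ones]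
    refine Finset.sum_le_sum fun P hP => ?_
    have h3 : 1 ≤ (normalizedFactors (a * b)).count P :=
      Multiset.one_le_count_iff_mem.2 (Multiset.mem_toFinset.1 hP)
    exact Nat.mul_le_mul h3 (hTd P hP)
  have hSdm : ∀ Q ∈ S, Q.natDegree ≤ dm := by
    intro Q hQ
    obtain ⟨P, hP, rfl⟩ := Finset.mem_image.1 hQ
    rw [Finset.mem_filter] at hP
    rw [(hl P hP.1).2.1]
    exact hP.2
  -- the products of the scaled polynomials
  have hsc : ∀ g : K[X] → ℕ, ∏ P ∈ T, (P.scaleRoots N) ^ g P =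
      C (N ^ (∑ P ∈ T, g P * P.natDegree)) * ∏ P ∈ T, (tau N hNK P) ^ g P := by
    intro g
    rw [← Finset.prod_pow_eq_pow_sum, map_prod, ← Finset.prod_mul_distrib]
    refine Finset.prod_congr rfl fun P _ => ?_
    rw [scale_eq hNK, mul_pow, ← C_pow, ← pow_mul, mul_comm (g P)]
  -- one side
  have side : ∀ (a : K[X]), a = C a.leadingCoeff *
      ∏ P ∈ T, P ^ (normalizedFactors a).count P → ∀ (α : 𝓞 K) (c : K),
      algebraMap (𝓞 K) K α = c ^ 2 * a.leadingCoeff →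
      (C (algebraMap (𝓞 K) K α) * ∏ Q ∈ S₀, (Q.map (algebraMap (𝓞 K) K)) ^
          (normalizedFactors a).count (inv Q) =
        tau N hNK a * (C (c * (n : K) ^ dg S₀ (fun Q => (normalizedFactors a).count (inv Q)))) ^ 2) ∧
      ∀ (u V : 𝓞 K), V ≠ 0 →
        algebraMap (𝓞 K) K (vA S₀ α (dg S₀ (fun Q => (normalizedFactors a).count (inv Q)))
          (fun Q => (normalizedFactors a).count (inv Q)) u V) =
        (c * ((n : K) * algebraMap (𝓞 K) K V) ^
          dg S₀ (fun Q => (normalizedFactors a).count (inv Q))) ^ 2 *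
          a.eval (algebraMap (𝓞 K) K u / algebraMap (𝓞 K) K V / N) := by
    intro a hea α c hαc
    set e0 : K[X] → ℕ := fun P => (normalizedFactors a).count P with he0
    set e : (𝓞 K)[X] → ℕ := fun Q => (normalizedFactors a).count (inv Q) with he
    have hel : ∀ P ∈ T, e (lft P) = e0 P := fun P hP => by
      simp only [he, he0]
      rw [hinvl P hP]
    have hE : dg S₀ e = ∑ P ∈ T, e0 P * P.natDegree := by
      unfold dg
      rw [hsum]
      exact Finset.sum_congr rfl fun P hP => by rw [hel P hP, (hl P hP).2.1]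
    have hNn : N ^ dg S₀ e = ((n : K) ^ dg S₀ e) ^ 2 := by
      rw [hNdef, ← pow_mul, ← pow_mul, mul_comm]
    constructor
    · rw [hprod]
      have h2 : ∏ P ∈ T, ((lft P).map (algebraMap (𝓞 K) K)) ^ e (lft P) =
          ∏ P ∈ T, (P.scaleRoots N) ^ e0 P :=
        Finset.prod_congr rfl fun P hP => by rw [(hl P hP).2.2, hel P hP]
      rw [h2, hsc, ← hE, hαc, hNn]
      conv_rhs => rw [hea]
      rw [map_mul (tau N hNK), map_prod (tau N hNK)]
      simp only [map_pow (tau N hNK)]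
      have h3 : tau N hNK (C a.leadingCoeff) = C a.leadingCoeff := by
        rw [tau_apply, C_comp]
      rw [h3]
      simp only [C_mul, C_pow]
      ring
    · intro u V hV0
      have hVK : algebraMap (𝓞 K) K V ≠ 0 := fun h =>
        hV0 (RingOfIntegers.coe_eq_zero_iff.1 h)
      set s : K := algebraMap (𝓞 K) K u / algebraMap (𝓞 K) K V / N with hs'
      have hNs : N * s = algebraMap (𝓞 K) K u / algebraMap (𝓞 K) K V := by
        rw [hs', mul_div_cancel₀ _ hNK]
      have hval : ∀ P ∈ T, algebraMap (𝓞 K) K (hv (lft P) u V) =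
          (N * algebraMap (𝓞 K) K V) ^ P.natDegree * P.eval s := by
        intro P hP
        rw [Pool.Agent.Helper17.CB.hv_eq (lft P) u V hV0, (hl P hP).2.2, (hl P hP).2.1, ← hNs,
          scaleRoots_eval_mul, mul_pow]
        ring
      have has : a.eval s = a.leadingCoeff * ∏ P ∈ T, (P.eval s) ^ e0 P := by
        conv_lhs => rw [hea]
        rw [eval_mul, eval_C, eval_prod]
        simp only [eval_pow, he0]
      have h5 : algebraMap (𝓞 K) K (∏ P ∈ T, hv (lft P) u V ^ e0 P) =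
          (N * algebraMap (𝓞 K) K V) ^ (∑ P ∈ T, e0 P * P.natDegree) *
            ∏ P ∈ T, (P.eval s) ^ e0 P := by
        rw [map_prod, ← Finset.prod_pow_eq_pow_sum, ← Finset.prod_mul_distrib]
        refine Finset.prod_congr rfl fun P hP => ?_
        rw [map_pow, hval P hP, mul_pow, ← pow_mul, mul_comm (e0 P)]
      unfold vA
      rw [hprod]
      have h2 : ∏ P ∈ T, hv (lft P) u V ^ e (lft P) = ∏ P ∈ T, hv (lft P) u V ^ e0 P :=
        Finset.prod_congr rfl fun P hP => by rw [hel P hP]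
      rw [h2, map_mul, map_mul, h5, ← hE, hαc, map_pow, has, mul_pow N, hNn]
      ring
  obtain ⟨α, β, c, d, hα, hβ, hc, hd, hαc, hβd, hharm⟩ := hHS
  obtain ⟨hA0, hA1⟩ := side a (eq_prod_factors T hTa) α c hαc
  obtain ⟨hB0, hB1⟩ := side b (eq_prod_factors T hTb) β d hβd
  set e : (𝓞 K)[X] → ℕ := fun Q => (normalizedFactors a).count (inv Q) with he
  set f : (𝓞 K)[X] → ℕ := fun Q => (normalizedFactors b).count (inv Q) with hf
  -- the local conditions
  have hlcv' : ∀ Q : (𝓞 K)[X], ∃ m1 : ℕ, m1 ≠ 0 ∧ (Q ∈ S₀ → Q ∉ S →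
      ∀ p : Ideal (𝓞 K), p.IsPrime → p ≠ ⊥ → (m1 : 𝓞 K) ∉ p →
      ∀ u V : 𝓞 K, V ∉ p → (∀ P' ∈ S₀, hv P' u V ≠ 0) → hv Q u V ∈ p →
      LC p (vA S₀ α (dg S₀ e) e u V) (vA S₀ β (dg S₀ f) f u V)) := by
    intro Q
    by_cases hQ : Q ∈ S₀ ∧ Q ∉ S
    · obtain ⟨hQ1, hQ2⟩ := hQ
      obtain ⟨P, hP, rfl⟩ := Finset.mem_image.1 hQ1
      have hdeg : ¬ P.natDegree ≤ dm := fun h =>
        hQ2 (Finset.mem_image.2 ⟨P, Finset.mem_filter.2 ⟨hP, h⟩, rfl⟩)
      have hLC : LC (Ideal.span {P}) a b :=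
        (hfac P (hTP P hP).1 (hTP P hP).2.2).resolve_left hdeg
      have h2 := lc_equiv (tau N hNK) hLC
      have h3 : (Ideal.span {P}).map (tau N hNK) =
          Ideal.span {(lft P).map (algebraMap (𝓞 K) K)} := by
        rw [Ideal.map_span, Set.image_singleton, (hl P hP).2.2, scale_eq hNK,
          Ideal.span_singleton_mul_left_unit (isUnit_C.2 (pow_ne_zero _ hNK).isUnit)]
      rw [h3] at h2
      have hirr := (hS₀P _ hQ1).2.2
      have hpr : (Ideal.span {(lft P).map (algebraMap (𝓞 K) K)}).IsPrime :=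
        (Ideal.span_singleton_prime hirr.ne_zero).2 hirr.prime
      have hbot : Ideal.span {(lft P).map (algebraMap (𝓞 K) K)} ≠ ⊥ := by
        rw [Ne, Ideal.span_singleton_eq_bot]
        exact hirr.ne_zero
      have h4 := Pool.Agent.Helper79.CB.lc_mul hpr hbot
        (η := C (c * (n : K) ^ dg S₀ e)) (θ := C (d * (n : K) ^ dg S₀ f))
        (C_ne_zero.2 (mul_ne_zero hc (pow_ne_zero _ hnK)))
        (C_ne_zero.2 (mul_ne_zero hd (pow_ne_zero _ hnK))) h2
      rw [← hA0, ← hB0] at h4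
      obtain ⟨m1, hm1, h5⟩ := Pool.Agent.Helper17.CB.lcv_step S₀ hα hβ e f hirr h4
      exact ⟨m1, hm1, fun _ _ => h5⟩
    · exact ⟨1, one_ne_zero, fun h h' => absurd ⟨h, h'⟩ hQ⟩
  choose M hM0 hM using hlcv'
  obtain ⟨m, u, v, hm0, hv0, hm1, hZ, hne, hH⟩ := hL S₀ hS₀P S hSS hcard hSdm e f α β hα hβ
    hharm (∏ Q ∈ S₀, M Q) (Finset.prod_ne_zero_iff.2 fun Q _ => hM0 Q)
    (by
      intro Q hQ hQS p hp hp0 hmp u V hV hne hQp
      refine hM Q hQ hQS p hp hp0 (fun h => hmp ?_) u V hV hne hQp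
      exact Pool.Agent.Helper3.CB.mem_dvd (Nat.cast_dvd_cast (Finset.dvd_prod_of_mem M hQ)) h)
    (Z.image (fun z => N * z))
  have hV0 : (m : 𝓞 K) * v ≠ 0 := mul_ne_zero (by exact_mod_cast hm0) hv0
  have hVK : algebraMap (𝓞 K) K ((m : 𝓞 K) * v) ≠ 0 := fun h =>
    hV0 (RingOfIntegers.coe_eq_zero_iff.1 h)
  have hcoe : ((u : K) / (m * v) : K) =
      algebraMap (𝓞 K) K u / algebraMap (𝓞 K) K ((m : 𝓞 K) * v) := by
    rw [map_mul, map_natCast]
  have hQne : ∀ g : (𝓞 K)[X] → ℕ, ∏ Q ∈ S₀, hv Q u ((m : 𝓞 K) * v) ^ g Q ≠ 0 := fun g =>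
    Finset.prod_ne_zero_iff.2 fun Q hQ => pow_ne_zero _ (hne Q hQ)
  refine ⟨algebraMap (𝓞 K) K u / algebraMap (𝓞 K) K ((m : 𝓞 K) * v) / N, ?_,
    vA S₀ α (dg S₀ e) e u (m * v), vA S₀ β (dg S₀ f) f u (m * v),
    c * ((n : K) * algebraMap (𝓞 K) K ((m : 𝓞 K) * v)) ^ dg S₀ e,
    d * ((n : K) * algebraMap (𝓞 K) K ((m : 𝓞 K) * v)) ^ dg S₀ f,
    ?_, ?_, ?_, ?_, hA1 u _ hV0, hB1 u _ hV0, hH⟩
  · intro h
    apply hZ
    rw [hcoe]
    have h1 : algebraMap (𝓞 K) K u / algebraMap (𝓞 K) K ((m : 𝓞 K) * v) =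
        N * (algebraMap (𝓞 K) K u / algebraMap (𝓞 K) K ((m : 𝓞 K) * v) / N) := by
      rw [mul_div_cancel₀ _ hNK]
    rw [h1]
    exact Finset.mem_image_of_mem _ h
  · exact mul_ne_zero (mul_ne_zero hα (pow_ne_zero _ hV0)) (hQne e)
  · exact mul_ne_zero (mul_ne_zero hβ (pow_ne_zero _ hV0)) (hQne f)
  · exact mul_ne_zero hc (pow_ne_zero _ (mul_ne_zero hnK hVK))
  · exact mul_ne_zero hd (pow_ne_zero _ (mul_ne_zero hnK hVK))

end Pool.Agent.Helper33.CB
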