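import Pool.Agent.Helper4.CB.GEN
import Pool.Agent.Helper16.CB.Alg
import Pool.Agent.Helper33.CB.Step

/-! Project CB: the pointwise theorem `PointG`. -/

set_option autoImplicit false

namespace Pool.Agent.Helper33.CB

open NumberField Polynomial Pool.Agent.Helper4.CB Pool.Agent.Helper16.CB
open Pool.Agent.Helper65.CB (HS)

/-- **PG** -/
theorem pg (K : Type) [Field K] [NumberField K] (dm : ℕ) (hs : SieveX K dm) : PointG K dm := by
  intro D
  obtain ⟨J, -, hJ⟩ := step_g K dm hs D 0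
  obtain ⟨L, iF, iA, hfin, hL⟩ := Pool.Agent.Helper65.CB.solve K J (algebraic_block K J)
  refine ⟨L, iF, iA, hfin, ?_⟩
  intro a b ha hb _ hD hfac Z
  obtain ⟨s, hs, hHS⟩ := hJ a b ha hb.ne_zero hD hfac
    (by
      rw [hb.leadingCoeff]
      exact Pool.Agent.Helper65.CB.HS.one (leadingCoeff_ne_zero.2 ha)) Z
  obtain ⟨h1, h2, x, y, hxy⟩ := hL _ _ hHS
  refine ⟨s, hs, h1, h2, x, y, 1, Or.inr (Or.inr one_ne_zero), ?_⟩
  linear_combination hxy

end Pool.Agent.Helper33.CB
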