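import Pool.Agent.Helper33.CB.EndFam

/-! Project CB: potential density for products of quadric bundles from harmless points of the
base. -/

set_option autoImplicit false

namespace Pool.Agent.Helper33.CB

open MvPolynomial AlgebraicGeometry CategoryTheory Pool.Agent.Helper15
open Pool.Agent.Helper65.CB (HS solve)

/-! ## a criterion of density -/

/-- a nonempty set of points which can be changed infinitely often in every coordinate -/
theorem dense_of_update_fin {L : Type*} [Field L] (n : ℕ) :
    ∀ Y : Set (Fin n → L), Y.Nonempty →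
      (∀ y ∈ Y, ∀ v, {t : L | Function.update y v t ∈ Y}.Infinite) →
      ∀ h : MvPolynomial (Fin n) L, h ≠ 0 → ∃ y ∈ Y, eval y h ≠ 0 := by
  classical
  induction n with
  | zero =>
    rintro Y ⟨y, hy⟩ _ h hh
    refine ⟨y, hy, fun h0 => hh ?_⟩
    refine MvPolynomial.funext_set (fun _ => (∅ : Set L)) (fun i => i.elim0) fun x _ => ?_
    have : x = y := funext fun i => i.elim0
    rw [this, h0, map_zero]
  | succ n ih =>
    intro Y hne hY h hh
    have hF : finSuccEquiv L n h ≠ 0 := by
      rwa [Ne, map_eq_zero_iff _ (finSuccEquiv L n).injective]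
    obtain ⟨k, hk⟩ : ∃ k, (finSuccEquiv L n h).coeff k ≠ 0 := by
      by_contra hcon
      push Not at hcon
      exact hF (Polynomial.ext fun k => by rw [hcon k, Polynomial.coeff_zero])
    obtain ⟨y0, hy0⟩ := hne
    obtain ⟨y', hy', hev⟩ := ih {y' | Fin.cons (y0 0) y' ∈ Y} ⟨Fin.tail y0, by
        show Fin.cons (y0 0) (Fin.tail y0) ∈ Y
        rwa [Fin.cons_self_tail]⟩ (by
        intro y' hy' v
        have h1 := hY _ hy' v.succ
        convert h1 using 1
        ext t
        show Fin.cons (y0 0) (Function.update y' v t) ∈ Y ↔ _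
        rw [Fin.cons_update]
        rfl) _ hk
    have hY' : (Fin.cons (y0 0) y' : Fin (n + 1) → L) ∈ Y := hy'
    have hinf := hY _ hY' 0
    set p : Polynomial L := (finSuccEquiv L n h).map (eval y') with hp
    have hp0 : p ≠ 0 := by
      intro h0
      apply hev
      rw [← Polynomial.coeff_map, ← hp, h0, Polynomial.coeff_zero]
    obtain ⟨t, ht, htr⟩ := hinf.exists_notMem_finset p.roots.toFinset
    refine ⟨Fin.cons t y', ?_, ?_⟩
    · have : Function.update (Fin.cons (y0 0) y' : Fin (n + 1) → L) 0 t = Fin.cons t y' :=
        Fin.update_cons_zero _ _ _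
      rw [← this]
      exact ht
    · rw [eval_eq_eval_mv_eval']
      intro h0
      apply htr
      rw [Multiset.mem_toFinset, Polynomial.mem_roots hp0]
      exact h0

theorem dense_of_update {L : Type*} [Field L] {τ : Type*} [Finite τ] [DecidableEq τ]
    (Y : Set (τ → L)) (hne : Y.Nonempty)
    (hY : ∀ y ∈ Y, ∀ v, {t : L | Function.update y v t ∈ Y}.Infinite)
    (h : MvPolynomial τ L) (hh : h ≠ 0) : ∃ y ∈ Y, eval y h ≠ 0 := by
  classical
  obtain ⟨n, ⟨e⟩⟩ := Finite.exists_equiv_fin τ
  obtain ⟨y0, hy0⟩ := hne
  obtain ⟨y, hy, hev⟩ := dense_of_update_fin n {y | y ∘ e ∈ Y}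
    ⟨y0 ∘ e.symm, by
      show (y0 ∘ e.symm) ∘ e ∈ Y
      rwa [Function.comp_assoc, Equiv.symm_comp_self, Function.comp_id]⟩
    (by
      intro y hy v
      have h1 := hY _ hy (e.symm v)
      convert h1 using 1
      ext t
      have hfun : Function.update y v t ∘ e = Function.update (y ∘ e) (e.symm v) t := by
        funext i
        by_cases hi : e i = v
        · have hi' : i = e.symm v := by rw [← hi, e.symm_apply_apply]
          rw [Function.comp_apply, hi, Function.update_self, hi', Function.update_self]
        · have hi' : i ≠ e.symm v := by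
            intro h2
            exact hi (by rw [h2, e.apply_symm_apply])
          rw [Function.comp_apply, Function.update_of_ne hi, Function.update_of_ne hi',
            Function.comp_apply]
      show Function.update y v t ∘ e ∈ Y ↔ Function.update (y ∘ e) (e.symm v) t ∈ Y
      rw [hfun])
    (rename e h) (by
      intro h0
      exact hh ((rename_injective e e.injective) (by rw [h0, map_zero])))
  refine ⟨y ∘ e, hy, ?_⟩
  rwa [eval_rename] at hev

end Pool.Agent.Helper33.CB
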