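import Pool.Agent.Helper65.CB.Dom

/-! Project CB: domination from a retraction of rings. -/

set_option autoImplicit false

namespace Pool.Agent.Helper33.CB

open AlgebraicGeometry CategoryTheory Pool.Agent.Helper15 Pool.Agent.Helper65.CB

/-- If `R` is a retract (as a ring, the section being over `K`) of a localization of `C`, then
`Spec R` is dominated by `Spec C`. -/
theorem dominatedOver_of_retract (K R C C' : Type) [Field K] [CommRing R] [CommRing C]
    [CommRing C'] [Algebra K R] [Algebra K C] [Algebra K C'] [Algebra C C'] [IsScalarTower K C C']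
    (c : C) [IsLocalization.Away c C'] [Nontrivial R] (φ : R →ₐ[K] C') (θ : C' →+* R)
    (h : ∀ x, θ (φ x) = x) :
    DominatedOver K (Spec (CommRingCat.of R)) (Spec (CommRingCat.of C))
      (Spec.map (CommRingCat.ofHom (algebraMap K R)))
      (Spec.map (CommRingCat.ofHom (algebraMap K C))) := by
  have hinj : Function.Injective (φ : R →+* C') := Function.LeftInverse.injective h
  have hnt : Nontrivial C' := by
    refine ⟨⟨φ 0, φ 1, fun h0 => ?_⟩⟩
    exact zero_ne_one (hinj h0)
  refine ⟨Spec (CommRingCat.of C'), Spec.map (CommRingCat.ofHom (φ : R →+* C')),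
    Spec.map (CommRingCat.ofHom (algebraMap C C')), ?_, ?_, ?_, ?_⟩
  · refine ⟨?_⟩
    have h1 := (PrimeSpectrum.denseRange_comap_iff_ker_le_nilRadical (φ : R →+* C')).2 (by
      rw [(RingHom.injective_iff_ker_eq_bot _).1 hinj]
      exact bot_le)
    exact h1
  · exact IsOpenImmersion.of_isLocalization c
  · exact inferInstanceAs (Nonempty (PrimeSpectrum C'))
  · rw [← Spec.map_comp, ← Spec.map_comp, ← CommRingCat.ofHom_comp, ← CommRingCat.ofHom_comp]
    congr 2
    ext k
    show φ (algebraMap K R k) = algebraMap C C' (algebraMap K C k)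
    rw [φ.commutes, ← IsScalarTower.algebraMap_apply K C C']

end Pool.Agent.Helper33.CB
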