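import Pool.Agent.Helper16.CB.PolyLoc

/-! Project CB: scaling of polynomials, transport of the local condition, factorisation. -/

set_option autoImplicit false

namespace Pool.Agent.Helper33.CB

open NumberField Polynomial UniqueFactorizationMonoid
open Pool.Agent.Helper4.CB Pool.Agent.Helper16.CB

/-! ## local conditions and isomorphisms -/

theorem val_equiv {R R' : Type*} [CommRing R] [CommRing R'] (φ : R ≃+* R') {q : Ideal R} {a : R}
    {n : ℕ} (h : Val q a n) : Val (q.map φ) (φ a) n := by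
  have key : ∀ k : ℕ, φ a ∈ (q.map φ) ^ k ↔ a ∈ q ^ k := by
    intro k
    rw [← Ideal.map_pow, Ideal.mem_map_of_equiv]
    constructor
    · rintro ⟨x, hx, h⟩
      rwa [← φ.injective h]
    · exact fun h => ⟨a, h, rfl⟩
  exact ⟨(key n).2 h.1, fun h1 => h.2 ((key (n + 1)).1 h1)⟩

theorem lc_equiv {R R' : Type*} [CommRing R] [CommRing R'] (φ : R ≃+* R') {q : Ideal R} {a b : R}
    (h : LC q a b) : LC (q.map φ) (φ a) (φ b) := by
  obtain ⟨α, β, h1, h2, h3⟩ := h
  have key : ∀ (x y : R) (k : ℕ), x - y ^ 2 ∈ q ^ k → φ x - (φ y) ^ 2 ∈ (q.map φ) ^ k := by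
    intro x y k hxy
    rw [← map_pow, ← map_sub, ← Ideal.map_pow]
    exact Ideal.mem_map_of_mem _ hxy
  refine ⟨α, β, val_equiv φ h1, val_equiv φ h2, ?_⟩
  rcases h3 with h | ⟨h, h', t, ht⟩ | ⟨h, h', t, ht⟩ | ⟨h, h', t, ht⟩
  · exact Or.inl h
  · exact Or.inr (Or.inl ⟨h, h', φ t, key _ _ _ ht⟩)
  · exact Or.inr (Or.inr (Or.inl ⟨h, h', φ t, key _ _ _ ht⟩))
  · refine Or.inr (Or.inr (Or.inr ⟨h, h', φ t, ?_⟩))
    have := key _ _ _ ht
    rwa [map_neg, map_mul] at this

/-! ## scaling -/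

/-- the automorphism `X ↦ X / N` -/
noncomputable def tau {K : Type*} [Field K] (N : K) (hN : N ≠ 0) : K[X] ≃+* K[X] :=
  haveI : Invertible (N⁻¹) := invertibleOfNonzero (inv_ne_zero hN)
  (algEquivCMulXAddC (N⁻¹) 0).toRingEquiv

theorem tau_apply {K : Type*} [Field K] {N : K} (hN : N ≠ 0) (P : K[X]) :
    tau N hN P = P.comp (C N⁻¹ * X) := by
  have : Invertible (N⁻¹) := invertibleOfNonzero (inv_ne_zero hN)
  have h : tau N hN P = (algEquivCMulXAddC (N⁻¹) 0) P := rfl
  rw [h, algEquivCMulXAddC_apply, C_0, add_zero, comp_eq_aeval]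

theorem scale_eq {K : Type*} [Field K] {N : K} (hN : N ≠ 0) (P : K[X]) :
    P.scaleRoots N = C (N ^ P.natDegree) * tau N hN P := by
  rw [tau_apply hN]
  ext i
  rw [coeff_scaleRoots, coeff_C_mul, comp_C_mul_X_coeff]
  by_cases hi : i ≤ P.natDegree
  · have h1 : N ^ P.natDegree = N ^ (P.natDegree - i) * N ^ i := by
      rw [← pow_add]
      congr 1
      omega
    rw [h1, inv_pow]
    have h2 : N ^ i ≠ 0 := pow_ne_zero _ hN
    field_simp
  · rw [coeff_eq_zero_of_natDegree_lt (by omega)]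
    simp

theorem exists_scale {K : Type} [Field K] [NumberField K] (T : Finset K[X])
    (hT : ∀ P ∈ T, P.Monic) : ∃ n : ℕ, n ≠ 0 ∧ ∀ P ∈ T, ∃ Q : (𝓞 K)[X], Q.Monic ∧
      Q.natDegree = P.natDegree ∧ Q.map (algebraMap (𝓞 K) K) = P.scaleRoots ((n : K) ^ 2) := by
  choose r hr h1 hh using fun P : K[X] => clear_den (K := K) P
  refine ⟨∏ P ∈ T, r P, Finset.prod_ne_zero_iff.2 fun P _ => hr P, fun P hP => ?_⟩
  obtain ⟨t, ht⟩ := (Finset.dvd_prod_of_mem r hP).trans (dvd_pow_self _ two_ne_zero)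
  rw [← Nat.cast_pow]
  set N := (∏ P ∈ T, r P) ^ 2 with hN
  have hlift : P.scaleRoots (N : K) ∈ lifts (algebraMap (𝓞 K) K) := by
    rw [lifts_iff_coeff_lifts]
    intro i
    rw [coeff_scaleRoots]
    rcases lt_trichotomy i P.natDegree with hi | hi | hi
    · have e1 := congrArg (fun q : K[X] => q.coeff i) (hh P)
      simp only [coeff_map, coeff_C_mul] at e1
      refine ⟨(h1 P).coeff i * (t : 𝓞 K) * (N : 𝓞 K) ^ (P.natDegree - i - 1), ?_⟩
      rw [map_mul, map_mul, e1, map_pow, map_natCast, map_natCast]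
      have e2 : (N : K) = (r P : K) * (t : K) := by
        rw [ht]
        push_cast
        ring
      have e3 : (N : K) ^ (P.natDegree - i) = (N : K) ^ (P.natDegree - i - 1) * (N : K) := by
        rw [← pow_succ]
        congr 1
        omega
      rw [e3]
      nth_rewrite 3 [e2]
      ring
    · subst hi
      refine ⟨1, ?_⟩
      rw [map_one, Nat.sub_self, pow_zero, mul_one]
      exact (hT P hP).symm
    · refine ⟨0, ?_⟩
      rw [coeff_eq_zero_of_natDegree_lt hi, map_zero, zero_mul]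
  have hmon : (P.scaleRoots (N : K)).Monic := (monic_scaleRoots_iff _).2 (hT P hP)
  obtain ⟨Q, hQ1, hQ2, hQ3⟩ := lifts_and_natDegree_eq_and_monic hlift hmon
  exact ⟨Q, hQ3, hQ2.trans (natDegree_scaleRoots _ _), hQ1⟩

/-! ## the factorisation -/

theorem eq_prod_factors {K : Type*} [Field K] [DecidableEq K] {a : K[X]}
    (T : Finset K[X]) (hT : (normalizedFactors a).toFinset ⊆ T) :
    a = C a.leadingCoeff * ∏ P ∈ T, P ^ (normalizedFactors a).count P := by
  rw [← Finset.prod_multiset_count_of_subset _ _ hT,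
    Polynomial.leadingCoeff_mul_prod_normalizedFactors]

end Pool.Agent.Helper33.CB
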