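import Pool.Agent.Helper33.CB.Step
import Pool.Agent.Helper65.CB.TEDefs

/-! Project CB: S1. -/

set_option autoImplicit false

namespace Pool.Agent.Helper33.CB

open Pool.Agent.Helper4.CB Pool.Agent.Helper65.CB

/-- **S1** -/
theorem stepLC (K : Type) [Field K] [NumberField K] (dm : ℕ) (hs : SieveX K dm) :
    StepLC K dm :=
  step_g K dm hs

end Pool.Agent.Helper33.CB
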